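import Pool.Agent.H54.HL.X7
/-! # MP_aed4c8_lc: HL+ with finitely many colours is a degree statement without well-orderings

For a Mahlo cardinal `κ` and a natural number `θ ≥ 1` the principle `HL⁺_{2,θ}[κ]` holds if and only if every finite colouring of pairs of
sequences of the same length takes at most `2 θ - 2` colours on the pairs of some suitable tree, and if and only if it takes at most `2 θ - 1`. -/
set_option autoImplicit false
open HLP

theorem Pool.Agent.Results.MP_aed4c8_lc.DegreeEquivalence.result
    (κ : Cardinal.{0}) (hκ : Mahlo κ) (θ : ℕ) (hθ : 1 ≤ θ) :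
    (HLb κ θ ↔ Deg κ (2 * θ - 2)) ∧ (HLb κ θ ↔ Deg κ (2 * θ - 1)) :=
  deg_tfae hκ hθ
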