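import Pool.Agent.H54.HR.R9
import Pool.Agent.H54.HR.R10
/-! # MP_aed4c8_lc: a measurable cardinal is a counterexample iff almost all smaller cardinals are

Let `U` be a normal ultrafilter on `κ` and let `C`, `D` be sets of fewer than `κ` colours. The principle with the colours `C` holds and the
principle with the colours `D` fails at `κ` if and only if this is so at almost all smaller cardinals with respect to `U`. -/
set_option autoImplicit false
open HLP HLR

theorem Pool.Agent.Results.MP_aed4c8_lc.MeasurableReflection.result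
    (κ : Cardinal.{0}) (hκ : κ.IsInaccessible) (U : Ultrafilter Ordinal.{0}) (hU : NormalUF κ U)
    (C D : Type) (hC : Cardinal.mk C < κ) (hD : Cardinal.mk D < κ) :
    (HLC κ C ∧ ¬ HLC κ D) ↔
      {μ : Ordinal.{0} | ∃ ν : Cardinal.{0}, ν.ord = μ ∧ ν.IsInaccessible ∧ HLC ν C ∧ ¬ HLC ν D} ∈ U := by
  constructor
  · rintro ⟨h1, h2⟩
    have h3 : {μ : Ordinal.{0} | ∃ ν : Cardinal.{0}, ν.ord = μ ∧ ν.IsInaccessible ∧ HLC ν D}ᶜ ∈ U :=
      Ultrafilter.compl_mem_iff_notMem.2 fun h => h2 (up hκ hU hD h)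
    filter_upwards [down hκ hU hC h1, h3] with μ h4 h5
    obtain ⟨ν, h6, h7, h8⟩ := h4
    exact ⟨ν, h6, h7, h8, fun h9 => h5 ⟨ν, h6, h7, h9⟩⟩
  · intro h
    refine ⟨up hκ hU hC (Filter.mem_of_superset h ?_), fun h1 => ?_⟩
    · rintro μ ⟨ν, h2, h3, h4, _⟩
      exact ⟨ν, h2, h3, h4⟩
    · obtain ⟨μ, ⟨ν, h2, _, _, h3⟩, ν', h4, _, h5⟩ := U.nonempty_of_mem (Filter.inter_mem h (down hκ hU hD h1))
      have h6 : ν' = ν := Cardinal.ord_injective (h4.trans h2.symm)
      rw [h6] at h5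
      exact h3 h5
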