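import Pool.Agent.H54.HL.V
/-! # MP_aed4c8_lc: one sequence of well-orderings suffices, and the omitted colours can be chosen uniformly

Let `κ` be Mahlo and let `C` be a set of fewer than `κ` colours. If the principle (for every colouring some suitable tree omits a colour on
every `S(η₀, η₁)`) holds for one sequence of well-orderings, then for every sequence of well-orderings and every colouring there is a suitable
tree with one omitted colour for each of the two order types, the same for all pairs of the tree; for infinite `C` one colour is omitted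
on all pairs of the tree. -/
set_option autoImplicit false
open HLP

theorem Pool.Agent.Results.MP_aed4c8_lc.UniformOmission.result
    (κ : Cardinal.{0}) (hκ : Mahlo κ) (C : Type) (hC : Cardinal.mk C < κ)
    (lt lt' : Ordinal.{0} → Sq → Sq → Prop) (hlt : WO κ lt) (hlt' : WO κ lt') (h : HLw κ lt C)
    (c : Ordinal.{0} → Sq → Sq → C) (hc : Sym c) :
    ∃ (T : Ordinal.{0} → Set Sq) (A : Set Ordinal.{0}) (i₀ i₁ : C), Suitable κ T A ∧ (Infinite C → i₀ = i₁) ∧
      ∀ β ∈ A, ∀ x ∈ T β, ∀ y ∈ T β, (∃ δ, res δ x = res δ y ∧ x δ = false ∧ y δ = true) →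
        (lt' β x y → c β x y ≠ i₀) ∧ (lt' β y x → c β x y ≠ i₁) :=
  uniform_inf hκ hC hlt hlt' h c hc
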